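import Pool.Agent.Lib.MP_54db3e_nt.Main

open Pool.Agent.Lib.MP_54db3e_nt

/-- For the curve `y² + y = x³ + 8175274 x + 50242716927` and the good ordinary prime `p = 5`,
the module `X(E/F_∞)/X(E/F_∞)(p)` is not finitely generated over `Λ(H)`. -/
theorem Pool.Agent.Results.MP_54db3e_nt.Counterexample.result :
    ∃ (W : WeierstrassCurve ℤ) (p : ℕ) (_ : Fact p.Prime),
      W = ⟨0, 0, 1, 8175274, 50242716927⟩ ∧ p = 5 ∧ 5 ≤ p ∧ GoodOrdinary W p ∧
        ¬ FinGenModP (W.map (Int.castRingHom ℚ)) p (AlgebraicClosure ℚ) :=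
  final goodS' mainS'
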